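import Mathlib
import Pool.Agent.W533.K.Defs

/-!
# UK-EXTREC: the recursive extension theorem

For subtask 4808 (project UK of helper533).
-/

set_option autoImplicit false

namespace Pool.Agent.W382.UK

open Finset Pool.Agent.W533.K

universe u

theorem cntLt_le_card {ι : Type} [Fintype ι] (p : ι → ℝ) (t : ℝ) :
    cntLt p t ≤ Fintype.card ι := by
  classical
  unfold cntLt
  exact (Finset.card_filter_le _ _).trans (by simp)

theorem cntLt_pos {ι : Type} [Fintype ι] {p : ι → ℝ} {t : ℝ} {i : ι} (h : p i < t) :
    0 < cntLt p t := by
  classical
  unfold cntLt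
  exact Finset.card_pos.2 ⟨i, by simp [h]⟩

theorem cntLt_lt {ι : Type} [Fintype ι] {p : ι → ℝ} {t : ℝ} {i : ι} (h : p i < t) :
    cntLt p (p i) < cntLt p t := by
  classical
  unfold cntLt
  apply Finset.card_lt_card
  rw [Finset.ssubset_iff_of_subset]
  · exact ⟨i, by simp [h], by simp⟩
  · intro j hj
    simp only [Finset.mem_filter, Finset.mem_univ, true_and] at hj ⊢
    exact hj.trans h

theorem cntLt_mono {ι : Type} [Fintype ι] {p q : ι → ℝ} {s t : ℝ} (h : ∀ i, p i < s → q i < t) :
    cntLt p s ≤ cntLt q t := by
  classical
  unfold cntLt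
  apply Finset.card_le_card
  intro j hj
  simp only [Finset.mem_filter, Finset.mem_univ, true_and] at hj ⊢
  exact h j hj

theorem tw_nonneg (Lm ε t : ℝ) : 0 ≤ tw Lm ε t := le_max_right _ _

theorem tw_anti {Lm ε s t : ℝ} (hL : 0 ≤ Lm) (h : s ≤ t) : tw Lm ε t ≤ tw Lm ε s := by
  unfold tw
  apply max_le_max _ le_rfl
  have : Real.exp (-(Lm * t)) ≤ Real.exp (-(Lm * s)) := by
    apply Real.exp_le_exp.2
    nlinarith [mul_le_mul_of_nonneg_left h hL]
  linarith

theorem lt_of_tw_pos {Lm ε t : ℝ} (hL : 0 < Lm) (h : 0 < tw Lm ε t) : t < ε := by
  unfold tw at h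
  have h1 : 0 < Real.exp (-(Lm * t)) - Real.exp (-(Lm * ε)) := by
    rcases lt_max_iff.1 h with h | h
    · exact h
    · exact absurd h (lt_irrefl _)
  have h2 : Real.exp (-(Lm * ε)) < Real.exp (-(Lm * t)) := by linarith
  have h3 := Real.exp_lt_exp.1 h2
  by_contra hcon
  push Not at hcon
  nlinarith [mul_le_mul_of_nonneg_left hcon hL.le]

theorem tw_zero_pos {Lm ε : ℝ} (h : 0 < Lm * ε) : 0 < tw Lm ε 0 := by
  unfold tw
  apply lt_max_of_lt_left
  have : Real.exp (-(Lm * ε)) < Real.exp (-(Lm * 0)) := by
    apply Real.exp_lt_exp.2
    linarith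
  linarith

/-- The gain function. -/
noncomputable def GG (A : ℝ) (s : ℕ) : ℝ := A * (1 + Real.logb 2 (1 + s))

theorem GG_mono {A : ℝ} (hA : 0 ≤ A) {s t : ℕ} (h : s ≤ t) : GG A s ≤ GG A t := by
  unfold GG
  apply mul_le_mul_of_nonneg_left _ hA
  have h1 : (s : ℝ) ≤ t := by exact_mod_cast h
  have : Real.logb 2 (1 + s) ≤ Real.logb 2 (1 + t) :=
    Real.logb_le_logb_of_le (by norm_num) (by positivity) (by linarith)
  linarith

theorem GG_ge {A : ℝ} (hA : 0 ≤ A) (s : ℕ) : A ≤ GG A s := by
  have := GG_mono hA (Nat.zero_le s)
  simpa [GG] using this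

theorem GG_light {A : ℝ} (hA : 0 ≤ A) {s t : ℕ} (h : 2 * s + 1 ≤ t) : GG A s ≤ GG A t - A := by
  unfold GG
  have h1 : (2 * s + 1 : ℝ) ≤ t := by exact_mod_cast h
  have h2 : Real.logb 2 (2 * (1 + s)) ≤ Real.logb 2 (1 + t) :=
    Real.logb_le_logb_of_le (by norm_num) (by positivity) (by linarith)
  rw [Real.logb_mul (by norm_num) (by positivity), Real.logb_self_eq_one (by norm_num)] at h2
  have h3 : A * (1 + Real.logb 2 (1 + s)) ≤ A * (Real.logb 2 (1 + t)) :=
    mul_le_mul_of_nonneg_left h2 hA
  linarith

theorem extRec (hT : Transfer.{u}) (hA : Avg.{u}) (hH : Heavy1) : ExtRec.{u} := by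
  intro X _ _ ι _ c D K τ A hc hD hK hτ hDτ hτl hemb hAK
  classical
  intro Y hY n lam h hlam hlip
  obtain ⟨y0, hy0⟩ := hY
  have hιne : Nonempty ι := ⟨c y0⟩
  have hk1 : 1 ≤ Fintype.card ι := Fintype.card_pos
  have hkR : (1 : ℝ) ≤ Fintype.card ι := by exact_mod_cast hk1
  set k := Fintype.card ι with hkdef
  have hell : 2 ≤ ell k := by
    unfold ell
    have : Real.logb 2 2 ≤ Real.logb 2 (1 + k) :=
      Real.logb_le_logb_of_le (by norm_num) (by norm_num) (by linarith)
    rw [Real.logb_self_eq_one (by norm_num)] at this
    linarith
  have hτ8 : τ ≤ 9 / 8 := by nlinarith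
  have hlog2 : 0.69 < Real.log 2 := by have := Real.log_two_gt_d9; linarith
  have hlogk : Real.log 2 ≤ Real.log (2 * k) :=
    Real.log_le_log (by norm_num) (by linarith)
  have hlogpos : 0 < Real.log (2 * k) := by linarith
  have hA90 : 90 * K ≤ A := by nlinarith
  have hApos : 0 < A := by linarith
  have hA1 : 1 ≤ A := by linarith
  have hGk : ∀ s : ℕ, s ≤ k → GG A s ≤ A * ell k := by
    intro s hs
    exact GG_mono hApos.le hs
  -- the claim
  have P : ∀ m : ℕ, ∀ (Y : Set X), Y.Nonempty → ∀ (n : ℕ) (lam : ℝ) (h : X → E n), 0 ≤ lam →
      (∀ x ∈ Y, ∀ y ∈ Y, ‖h x - h y‖ ≤ lam * dist x y) →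
      ∃ H : X → E n, (∀ x ∈ Y, H x = h x) ∧
        (∀ x, cntLt (fun i => pd c i x) (Metric.infDist x Y) ≤ m → ∀ b ∈ Y,
          ‖H x - h b‖ ≤ 10 * K * lam * dist x b) ∧
        (∀ x y, cntLt (fun i => pd c i x) (Metric.infDist x Y) ≤ m →
          cntLt (fun i => pd c i y) (Metric.infDist y Y) ≤ m →
          ‖H x - H y‖ ≤ lam * GG A (cntLt (fun i => pd c i x) (Metric.infDist x Y)) *
            dist x y) := by
    intro m
    induction m with
    | zero =>
      intro Y hY n lam h hlam hlip
      have hmem : ∀ x, cntLt (fun i => pd c i x) (Metric.infDist x Y) ≤ 0 → x ∈ Y := by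
        intro x hx
        by_contra hxY
        have hcl : IsClosed Y := (Set.toFinite Y).isClosed
        have hpos : 0 < Metric.infDist x Y :=
          (hcl.notMem_iff_infDist_pos hY).1 hxY
        have h0 : pd c (c x) x = 0 := Metric.infDist_zero_of_mem (by simp)
        have := cntLt_pos (p := fun i => pd c i x) (i := c x) (t := Metric.infDist x Y)
          (by simpa [h0] using hpos)
        omega
      refine ⟨h, fun x _ => rfl, ?_, ?_⟩
      · intro x hx b hb
        refine (hlip x (hmem x hx) b hb).trans ?_
        have h1 : 0 ≤ lam * dist x b := mul_nonneg hlam dist_nonneg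
        nlinarith
      · intro x y hx hy
        refine (hlip x (hmem x hx) y (hmem y hy)).trans ?_
        have h1 : 0 ≤ lam * dist x y := mul_nonneg hlam dist_nonneg
        have h2 := GG_ge hApos.le (cntLt (fun i => pd c i x) (Metric.infDist x Y))
        calc lam * dist x y = 1 * (lam * dist x y) := by ring
          _ ≤ GG A (cntLt (fun i => pd c i x) (Metric.infDist x Y)) * (lam * dist x y) :=
              mul_le_mul_of_nonneg_right (by linarith) h1
          _ = _ := by ring
    | succ m ih =>
      intro Y hY n lam h hlam hlip
      have hpne : ∀ i, ({x | c x = i} : Set X).Nonempty := fun i => hc i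
      choose hi hi1 hi2 using fun i => hT X ‹_› ‹_› D K τ hD (by linarith) hDτ {x | c x = i} Y
        (hpne i) (hemb i) n lam h hlam hlip
      have hτlam : 0 ≤ τ * lam := by positivity
      choose hh hh1 hh2 hh3 using fun i => ih {x | c x = i} (hpne i) n (τ * lam) (hi i) hτlam
        (hi1 i)
      have hlt : ∀ (x : X) (i : ι), pd c i x < Metric.infDist x Y →
          cntLt (fun i => pd c i x) (Metric.infDist x Y) ≤ m + 1 →
          cntLt (fun j => pd c j x) (Metric.infDist x {x | c x = i}) ≤ m := by
        intro x i h1 h2
        have h3 := cntLt_lt (p := fun i => pd c i x) (i := i) h1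
        have h4 : cntLt (fun j => pd c j x) (Metric.infDist x {x | c x = i}) =
            cntLt (fun j => pd c j x) (pd c i x) := rfl
        rw [h4]
        omega
      obtain ⟨H, hHY, hHc, hHfar, hHnear⟩ := hA X ‹_› ‹_› ι ‹_› c Y
        {x | cntLt (fun i => pd c i x) (Metric.infDist x Y) ≤ m + 1} n h hi hh (1 / 4)
        (3 * K * lam) (10 * K * (τ * lam)) (10 * K * lam) hc hY (by norm_num) le_rfl
        (by positivity) (by positivity)
        (by
          have h1 : 0 ≤ K * lam := by positivity
          have h2 : K * (τ * lam) ≤ 9 / 8 * (K * lam) := by nlinarith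
          nlinarith)
        (by
          intro x hx y hy
          refine (hlip x hx y hy).trans ?_
          have h1 : 0 ≤ lam * dist x y := mul_nonneg hlam dist_nonneg
          nlinarith)
        (by
          intro i a b ha hb
          refine (hi2 i a ha b hb).trans ?_
          have h1 : 0 ≤ lam * dist a b := mul_nonneg hlam dist_nonneg
          have h2 : τ * (K + 2) + K ≤ 3 * K := by nlinarith
          calc (τ * (K + 2) + K) * lam * dist a b = (τ * (K + 2) + K) * (lam * dist a b) := by ring
            _ ≤ 3 * K * (lam * dist a b) := mul_le_mul_of_nonneg_right h2 h1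
            _ = 3 * K * lam * dist a b := by ring)
        (by
          intro x hx hxY i hpi a ha
          exact hh2 i x (hlt x i hpi hx) a ha)
      refine ⟨H, hHY, fun x hx b hb => hHc x hx b hb, ?_⟩
      intro x y hx hy
      set N := cntLt (fun i => pd c i x) (Metric.infDist x Y) with hN
      have hNk : N ≤ k := cntLt_le_card _ _
      have hGN : A ≤ GG A N := GG_ge hApos.le N
      have hδ : 0 ≤ dist x y := dist_nonneg
      by_cases hfar : Metric.infDist x Y / 4 < dist x y
      · refine (hHfar x hx y hy hfar).trans ?_
        have h1 : 0 ≤ lam * dist x y := mul_nonneg hlam hδ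
        calc 9 * (10 * K * lam) * dist x y = (90 * K) * (lam * dist x y) := by ring
          _ ≤ GG A N * (lam * dist x y) := mul_le_mul_of_nonneg_right (by linarith) h1
          _ = _ := by ring
      · push Not at hfar
        by_cases hxY : x ∈ Y
        · have h0 : Metric.infDist x Y = 0 := Metric.infDist_zero_of_mem hxY
          rw [h0] at hfar
          have hxy : dist x y = 0 := le_antisymm (by linarith) hδ
          rw [dist_eq_zero] at hxy
          rw [← hxy]
          simp
        · have hcl : IsClosed Y := (Set.toFinite Y).isClosed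
          have hr : 0 < Metric.infDist x Y := (hcl.notMem_iff_infDist_pos hY).1 hxY
          refine (hHnear x hx y hy hxY hfar).trans ?_
          set r := Metric.infDist x Y with hrdef
          set Lm := Real.log (2 * Fintype.card ι) / (1 / 4) with hLm
          have hLm' : Lm = 4 * Real.log (2 * k) := by rw [hLm]; ring
          have hLmpos : 0 < Lm := by rw [hLm']; linarith
          set φ : ι → ℝ := w1 Lm (1 / 4) (fun i => pd c i x) r with hφ
          have hpc : pd c (c x) x = 0 := Metric.infDist_zero_of_mem (by simp)
          have hSpos : 0 < ∑ j, tw Lm (1 / 4) (pd c j x / r) := by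
            apply Finset.sum_pos' (fun j _ => tw_nonneg _ _ _)
            refine ⟨c x, Finset.mem_univ _, ?_⟩
            rw [hpc, zero_div]
            exact tw_zero_pos (by positivity)
          have hφdef : ∀ i, φ i = tw Lm (1 / 4) (pd c i x / r) /
              ∑ j, tw Lm (1 / 4) (pd c j x / r) := fun i => rfl
          have hφ0 : ∀ i, 0 ≤ φ i := by
            intro i
            rw [hφdef]
            exact div_nonneg (tw_nonneg _ _ _) hSpos.le
          have hφ1 : ∑ i, φ i = 1 := by
            simp only [hφdef]
            rw [← Finset.sum_div]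
            exact div_self hSpos.ne'
          have hφanti : ∀ i j, pd c i x ≤ pd c j x → φ j ≤ φ i := by
            intro i j hij
            rw [hφdef, hφdef]
            apply div_le_div_of_nonneg_right _ hSpos.le
            exact tw_anti hLmpos.le (div_le_div_of_nonneg_right hij hr.le)
          have hφpos : ∀ i, 0 < φ i → pd c i x < r / 4 := by
            intro i hi
            rw [hφdef] at hi
            have h1 : 0 < tw Lm (1 / 4) (pd c i x / r) := by
              rcases (tw_nonneg Lm (1 / 4) (pd c i x / r)).lt_or_eq with h | h
              · exact h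
              · rw [← h, zero_div] at hi
                exact absurd hi (lt_irrefl _)
            have h2 := lt_of_tw_pos hLmpos h1
            rw [div_lt_iff₀ hr] at h2
            linarith
          -- bounds for the pieces
          let Ni : ι → ℕ := fun i => cntLt (fun j => pd c j x) (pd c i x)
          have hpiece : ∀ i, φ i * ‖hh i x - hh i y‖ ≤
              φ i * (τ * lam * GG A (Ni i) * dist x y) := by
            intro i
            rcases (hφ0 i).lt_or_eq with hi | hi
            · apply mul_le_mul_of_nonneg_left _ (hφ0 i)
              have h1 := hφpos i hi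
              have h2 : pd c i x < r := by linarith
              have h3 : pd c i y ≤ pd c i x + dist x y := by
                have := Metric.infDist_le_infDist_add_dist (s := {z | c z = i}) (x := y) (y := x)
                rw [dist_comm y x] at this
                exact this
              have h4 : r ≤ Metric.infDist y Y + dist x y :=
                Metric.infDist_le_infDist_add_dist
              have h5 : pd c i y < Metric.infDist y Y := by linarith
              exact hh3 i x y (hlt x i h2 hx) (hlt y i h5 hy)
            · rw [← hi]; simp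
          have hI : cntLt (fun j => - φ j) 0 ≤ N := by
            apply cntLt_mono
            intro i hi
            have h1 := hφpos i (by linarith)
            linarith
          let B : Finset ι := univ.filter fun i => cntLt (fun j => - φ j) 0 ≤ 2 * Ni i
          have hB : 2 * ∑ i ∈ B, φ i ≤ 1 := by
            have := hH ι ‹_› (fun i => pd c i x) φ hφ0 hφanti B (fun i hi => by
              simp only [B, Finset.mem_filter, Finset.mem_univ, true_and] at hi
              exact hi)
            rw [hφ1] at this
            exact this
          have hG : ∀ i, φ i * GG A (Ni i) ≤ φ i * (GG A N) - (if i ∈ B then 0 else φ i * A) := by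
            intro i
            rcases (hφ0 i).lt_or_eq with hi | hi
            · have h1 := hφpos i hi
              have h2 : Ni i < N := cntLt_lt (p := fun i => pd c i x) (i := i)
                (by change pd c i x < r; linarith)
              split_ifs with hiB
              · have := GG_mono hApos.le h2.le
                have := mul_le_mul_of_nonneg_left this (hφ0 i)
                linarith
              · have h3 : 2 * Ni i + 1 ≤ N := by
                  have : ¬ cntLt (fun j => - φ j) 0 ≤ 2 * Ni i := by
                    intro hcon
                    exact hiB (by simp [B, hcon])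
                  omega
                have := GG_light hApos.le h3
                have := mul_le_mul_of_nonneg_left this (hφ0 i)
                linarith
            · rw [← hi]; simp
          have hsum : ∑ i, φ i * GG A (Ni i) ≤ GG A N - A / 2 := by
            have h1 : ∑ i, φ i * GG A (Ni i) ≤
                ∑ i, (φ i * (GG A N) - (if i ∈ B then 0 else φ i * A)) :=
              Finset.sum_le_sum fun i _ => hG i
            have h2 : ∑ i, (φ i * (GG A N) - (if i ∈ B then 0 else φ i * A)) =
                GG A N - ∑ i, (if i ∈ B then 0 else φ i * A) := by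
              rw [Finset.sum_sub_distrib, ← Finset.sum_mul, hφ1, one_mul]
            have h3 : ∑ i, (if i ∈ B then 0 else φ i * A) = A - (∑ i ∈ B, φ i) * A := by
              have h4 : ∑ i, (if i ∈ B then φ i * A else 0) = (∑ i ∈ B, φ i) * A := by
                rw [Finset.sum_ite_mem, Finset.univ_inter, Finset.sum_mul]
              have h5 : ∑ i, (if i ∈ B then 0 else φ i * A) + ∑ i, (if i ∈ B then φ i * A else 0) =
                  A := by
                rw [← Finset.sum_add_distrib]
                have : ∀ i, ((if i ∈ B then 0 else φ i * A) + (if i ∈ B then φ i * A else 0)) =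
                    φ i * A := by
                  intro i
                  split_ifs <;> simp
                simp only [this]
                rw [← Finset.sum_mul, hφ1, one_mul]
              linarith
            rw [h2, h3] at h1
            nlinarith
          have hfirst : ∑ i, φ i * ‖hh i x - hh i y‖ ≤
              τ * lam * dist x y * (GG A N - A / 2) := by
            calc ∑ i, φ i * ‖hh i x - hh i y‖ ≤
                ∑ i, φ i * (τ * lam * GG A (Ni i) * dist x y) :=
                  Finset.sum_le_sum fun i _ => hpiece i
              _ = τ * lam * dist x y * ∑ i, φ i * GG A (Ni i) := by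
                  rw [Finset.mul_sum]
                  apply Finset.sum_congr rfl
                  intro i _
                  ring
              _ ≤ τ * lam * dist x y * (GG A N - A / 2) :=
                  mul_le_mul_of_nonneg_left hsum (by positivity)
          have hsecond : 18 * Lm * (10 * K * lam) * dist x y ≤ A / 4 * (lam * dist x y) := by
            rw [hLm']
            have h1 : 0 ≤ lam * dist x y := mul_nonneg hlam hδ
            calc 18 * (4 * Real.log (2 * k)) * (10 * K * lam) * dist x y =
                (720 * Real.log (2 * k) * K) * (lam * dist x y) := by ring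
              _ ≤ A / 4 * (lam * dist x y) := mul_le_mul_of_nonneg_right (by linarith) h1
          have hτG : (τ - 1) * GG A N ≤ A / 4 := by
            calc (τ - 1) * GG A N ≤ (τ - 1) * (A * ell k) :=
                  mul_le_mul_of_nonneg_left (hGk N hNk) (by linarith)
              _ = A * ((τ - 1) * ell k) := by ring
              _ ≤ A * (1 / 4) := mul_le_mul_of_nonneg_left hτl hApos.le
              _ = A / 4 := by ring
          have hfin : τ * (GG A N - A / 2) + A / 4 ≤ GG A N := by nlinarith
          calc ∑ i, φ i * ‖hh i x - hh i y‖ + 18 * Lm * (10 * K * lam) * dist x y ≤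
              τ * lam * dist x y * (GG A N - A / 2) + A / 4 * (lam * dist x y) :=
                add_le_add hfirst hsecond
            _ = (lam * dist x y) * (τ * (GG A N - A / 2) + A / 4) := by ring
            _ ≤ (lam * dist x y) * GG A N :=
                mul_le_mul_of_nonneg_left hfin (mul_nonneg hlam hδ)
            _ = lam * GG A N * dist x y := by ring
  obtain ⟨H, hH1, hH2, hH3⟩ := P k Y ⟨y0, hy0⟩ n lam h hlam hlip
  refine ⟨H, ?_, ?_⟩
  · intro x y
    refine (hH3 x y (cntLt_le_card _ _) (cntLt_le_card _ _)).trans ?_
    have h1 := hGk _ (cntLt_le_card (fun i => pd c i x) (Metric.infDist x Y))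
    have h2 : 0 ≤ lam * dist x y := mul_nonneg hlam dist_nonneg
    calc lam * GG A (cntLt (fun i => pd c i x) (Metric.infDist x Y)) * dist x y =
        GG A (cntLt (fun i => pd c i x) (Metric.infDist x Y)) * (lam * dist x y) := by ring
      _ ≤ A * ell k * (lam * dist x y) := mul_le_mul_of_nonneg_right h1 h2
      _ = _ := by ring
  · intro x b hb
    exact hH2 x (cntLt_le_card _ _) b hb

end Pool.Agent.W382.UK
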